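import Pool.Agent.Helper51.CX.St

set_option autoImplicit false

namespace Pool.Agent.Helper39.CX

open Pool.Agent.Helper51.CX

section

variable {K : Type} [Field K] [LinearOrder K] [IsStrictOrderedRing K]

/-- The last coordinates at a corner. -/
theorem b4_sum (d : Fin 6 → K) (hMY : MY d) (a : Fin 6) (ha : a = 2 ∨ a = 3 ∨ a = 4)
    (hZ : ∀ c : Fin 6, (c = 2 ∨ c = 3 ∨ c = 4) → c ≠ a → MZ c d) :
    |d 1| ≤ 9 * |d a| + 62 * |d 5| ∧ |d a| ≤ |d 1| + 62 * |d 5| := by
  have h0 : |d 1 - (d 2 + 3 * d 3 + 9 * d 4)| = 50 * |d 5| := hMY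
  have h1 := abs_le.1 (le_of_eq h0)
  have p5 := abs_nonneg (d 5)
  have hc : ∀ c : Fin 6, (c = 2 ∨ c = 3 ∨ c = 4) → c ≠ a → -|d 5| ≤ d c ∧ d c ≤ |d 5| := by
    intro c hc hca
    have h : |d c| = |d 5| := hZ c hc hca
    exact abs_le.1 (le_of_eq h)
  have q1 := neg_abs_le (d a)
  have q2 := le_abs_self (d a)
  have r1 := neg_abs_le (d 1)
  have r2 := le_abs_self (d 1)
  have pa := abs_nonneg (d a)
  rcases ha with rfl | rfl | rfl
  · have h3 := hc 3 (by simp) (by decide)
    have h4 := hc 4 (by simp) (by decide)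
    constructor
    · rw [abs_le]; constructor <;> linarith [h1.1, h1.2, h3.1, h3.2, h4.1, h4.2]
    · rw [abs_le]; constructor <;> linarith [h1.1, h1.2, h3.1, h3.2, h4.1, h4.2]
  · have h3 := hc 2 (by simp) (by decide)
    have h4 := hc 4 (by simp) (by decide)
    constructor
    · rw [abs_le]; constructor <;> linarith [h1.1, h1.2, h3.1, h3.2, h4.1, h4.2]
    · have h5 : 3 * |d 3| ≤ |d 1| + 62 * |d 5| := by
        have : |3 * d 3| ≤ |d 1| + 62 * |d 5| := by
          rw [abs_le]; constructor <;> linarith [h1.1, h1.2, h3.1, h3.2, h4.1, h4.2]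
        rwa [abs_mul, abs_of_pos (by norm_num : (0 : K) < 3)] at this
      linarith
  · have h3 := hc 2 (by simp) (by decide)
    have h4 := hc 3 (by simp) (by decide)
    constructor
    · rw [abs_le]; constructor <;> linarith [h1.1, h1.2, h3.1, h3.2, h4.1, h4.2]
    · have h5 : 9 * |d 4| ≤ |d 1| + 62 * |d 5| := by
        have : |9 * d 4| ≤ |d 1| + 62 * |d 5| := by
          rw [abs_le]; constructor <;> linarith [h1.1, h1.2, h3.1, h3.2, h4.1, h4.2]
        rwa [abs_mul, abs_of_pos (by norm_num : (0 : K) < 9)] at this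
      linarith

/-- Signs: `|fx| = 50`, `37 ≤ |fy| ≤ 63`, the squares of the signs are one. -/
theorem b4_sgn (j : ℕ) (h1 : 32 ≤ j) (h2 : j < 64) : |(fx j : K)| = 50 ∧ 37 ≤ |(fy j : K)| ∧
    |(fy j : K)| ≤ 63 ∧ (v1 j : K) * v1 j = 1 ∧ (v2 j : K) * v2 j = 1 ∧ (v3 j : K) * v3 j = 1 := by
  obtain ⟨a, b, c, e, f⟩ := sgn (K := K) j h1 h2
  have ha : |(fx j : K)| = 50 := by
    rcases a with a | a <;> rw [a]
    · exact abs_of_pos (by norm_num)
    · rw [abs_neg]; exact abs_of_pos (by norm_num)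
  have hb : (v1 j : K) * v1 j = 1 := by rcases b with b | b <;> rw [b] <;> norm_num
  have hc : (v2 j : K) * v2 j = 1 := by rcases c with c | c <;> rw [c] <;> norm_num
  have he : (v3 j : K) * v3 j = 1 := by rcases e with e | e <;> rw [e] <;> norm_num
  have b1 : -1 ≤ (v1 j : K) ∧ (v1 j : K) ≤ 1 := by rcases b with b | b <;> rw [b] <;> norm_num
  have c1 : -1 ≤ (v2 j : K) ∧ (v2 j : K) ≤ 1 := by rcases c with c | c <;> rw [c] <;> norm_num
  have e1 : -1 ≤ (v3 j : K) ∧ (v3 j : K) ≤ 1 := by rcases e with e | e <;> rw [e] <;> norm_num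
  refine ⟨ha, ?_, ?_, hb, hc, he⟩
  · rcases f with f | f
    · exact le_trans (by linarith [b1.1, c1.1, e1.1]) (le_abs_self _)
    · exact le_trans (by linarith [b1.2, c1.2, e1.2]) (neg_le_abs _)
  · rw [abs_le]
    rcases f with f | f
    · constructor <;> linarith [b1.1, c1.1, e1.1, b1.2, c1.2, e1.2]
    · constructor <;> linarith [b1.1, c1.1, e1.1, b1.2, c1.2, e1.2]

end

theorem hB4 : StTRA → StBDP → StBDD → StB4 := by
  intro hTRA hBDP hBDD K _ _ _ j h z d hS hF' hLd hfar hh hLh k hk hkj hMem hMY a ha hZ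
  obtain ⟨lo, hi, hF, tj, e0, e1, e2, e3, e4⟩ := hS
  obtain ⟨sfx, sfy, sfy', s1, s2, s3⟩ := b4_sgn (K := K) j lo hi
  have hLz' : L j (z + d) = 10 ^ 60 := by rw [L_add, tj, hLd, add_zero]
  obtain ⟨z1, z2, z3, _, _, _, F1, F2, _, _, _⟩ := hBDP K j lo hi z hF tj
  obtain ⟨w1, w2, w3, w4, _, w6, _, _, _, w10, w11⟩ := hBDP K j lo hi (z + d) hF' hLz'
  obtain ⟨d1, dga, dgb, _, _, _, d7, d8, d9⟩ := hBDD K j lo hi d
  have hww' : 10 ^ 40 * |ww j (z + d)| = 10 ^ 20 * pp j (z + d) - el j (z + d) := by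
    rcases hh with rfl | rfl
    · exact w10 hLh
    · exact w11 hLh
  have hwwz : ww j z = 0 := by simp only [ww, e0, e1]; ring
  have hppz : pp j z = z 5 * FF K j := by simp only [pp, FF, e0, e1]; ring
  have helz : el j z = 3 * z 5 := by
    have : el j z = z 5 * ((v1 j : K) * v1 j) + z 5 * ((v2 j : K) * v2 j) +
        z 5 * ((v3 j : K) * v3 j) := by simp only [el, e2, e3, e4]; ring
    rw [this, s1, s2, s3]; ring
  have hwwd : ww j (z + d) = ww j d := by rw [ww_add, hwwz, zero_add]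
  have hppd : pp j (z + d) = z 5 * FF K j + pp j d := by rw [pp_add, hppz]
  have held : el j (z + d) = 3 * z 5 + el j d := by rw [el_add, helz]
  have tz := abs_le.1 (show |z 5 - 1| ≤ 1 / 10 ^ 14 by
    rw [le_div_iff₀ (by norm_num)]; linarith)
  have tw := abs_le.1 (show |(z + d) 5 - 1| ≤ 1 / 10 ^ 14 by
    rw [le_div_iff₀ (by norm_num)]; linarith)
  have hn := nn_le z d
  have hm := mm_le z d
  have hd5 := d1 hLd
  have hm7 : mm d ≤ 7 := by linarith [tz.2, tw.2]
  have hn7 : nn d ≤ 230 := by linarith [tz.2, tw.2]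
  have hd5' : 10 ^ 13 * |d 5| ≤ 1 := by linarith
  obtain ⟨g1, g2⟩ := b4_sum d hMY a ha hZ
  have p5 := abs_nonneg (d 5)
  have hFpos : (0 : K) < FF K j := by linarith
  have hwwb : 10 ^ 20 * |ww j d| ≤ 7300 := by
    have h1 : 10 ^ 40 * |ww j d| ≤ 10 ^ 20 * (63 * nn (z + d)) + mm (z + d) := by
      rw [← hwwd, hww']
      have := le_abs_self (pp j (z + d))
      have := neg_abs_le (el j (z + d))
      linarith
    linarith [tw.2]
  have pww := abs_nonneg (ww j d)
  have hfw : |(fx j : K) * ww j d| = 50 * |ww j d| := by rw [abs_mul, sfx]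
  have hfp : |(fy j : K) * pp j d| = |(fy j : K)| * |pp j d| := abs_mul _ _
  have hFd1 : |FF K j * d 1| = FF K j * |d 1| := by rw [abs_mul, abs_of_pos hFpos]
  have pd1 := abs_nonneg (d 1)
  have ppd := abs_nonneg (pp j d)
  by_cases hgap : k = ga j ∨ k = gb j
  · exfalso
    have hk64 : k < 64 := by
      obtain ⟨_, _, _, _, _, _, x1, x2, _⟩ := hT1 j hi lo
      rcases hgap with rfl | rfl <;> omega
    have hLk : L k d = 0 := (Mem_lt hk64 d).1 hMem
    have hE : 10 ^ 40 * |ww j d| = |10 ^ 20 * pp j d - el j d| := by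
      rcases hgap with rfl | rfl
      · exact dga hLd hLk
      · exact dgb hLd hLk
    rw [hwwd, hE, hppd, held] at hww'
    have hel := abs_le.1 d7
    have hzF : (1 - 1 / 10 ^ 14) * FF K j ≤ z 5 * FF K j :=
      mul_le_mul_of_nonneg_right (by linarith [tz.1]) hFpos.le
    have hP : pp j d ≤ -(4999 / 10000) * FF K j := by
      rcases abs_cases (10 ^ 20 * pp j d - el j d) with ⟨h1, _⟩ | ⟨h1, _⟩
      · rw [h1] at hww'
        exfalso
        linarith [tz.2]
      · rw [h1] at hww'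
        linarith [tz.2, hel.1, hel.2]
    have hP' : 4999 / 10000 * FF K j ≤ |pp j d| := by
      have := neg_le_abs (pp j d)
      linarith
    have hprod : 37 * (4999 / 10000 * FF K j) ≤ |(fy j : K)| * |pp j d| :=
      mul_le_mul sfy hP' (by positivity) (abs_nonneg _)
    have h5 : |(fy j : K)| * |pp j d| ≤ FF K j * |d 1| + 50 * |ww j d| := by
      rw [← hfp, ← hFd1, ← hfw, d9]
      have := abs_sub (fy j * pp j d + fx j * ww j d) (fx j * ww j d : K)
      rwa [add_sub_cancel_right] at this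
    have h6 : 1848 / 100 * FF K j ≤ FF K j * |d 1| := by linarith
    have h7 : 1848 / 100 ≤ |d 1| := by
      by_contra hcon
      push Not at hcon
      have := mul_lt_mul_of_pos_left hcon hFpos
      linarith
    -- the size of `d a`
    have h8 : |d a| ≤ z 5 + (z + d) 5 := by
      have ha1 : |z a| ≤ z 5 := by
        rcases ha with rfl | rfl | rfl
        · exact hF.z2
        · exact hF.z3
        · exact hF.z4
      have ha2 : |(z + d) a| ≤ (z + d) 5 := by
        rcases ha with rfl | rfl | rfl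
        · exact hF'.z2
        · exact hF'.z3
        · exact hF'.z4
      have h9 : d a = (z + d) a - z a := by simp
      have h10 := abs_sub ((z + d) a) (z a)
      rw [← h9] at h10
      linarith
    linarith [tz.2, tw.2]
  · push Not at hgap
    have hT := hTRA K j lo hi k hk hkj hgap.1 hgap.2 d (Or.inr ⟨hLd, hMem⟩)
    have hP : 10 ^ 11 * |pp j d| ≤ 1 := by linarith
    have h5 : FF K j * |d 1| ≤ |(fy j : K)| * |pp j d| + 50 * |ww j d| := by
      rw [← hfp, ← hFd1, ← hfw, d9]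
      exact abs_add_le _ _
    have h6 : |(fy j : K)| * |pp j d| ≤ 63 * |pp j d| := mul_le_mul_of_nonneg_right sfy' ppd
    have h7 : 3869 * |d 1| ≤ FF K j * |d 1| := mul_le_mul_of_nonneg_right F1 pd1
    linarith

end Pool.Agent.Helper39.CX

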